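import Pool.Agent.W312.WT.StmP

/-! # Keys, first table, candidates -/

set_option autoImplicit false

namespace Pool.Agent.W999.WT

open Pool.Agent.NPC Pool.Agent.W312.WT

theorem poly_prs : NPC.Poly (fun l : List ℕ => prs l) :=
  NPC.Poly.flatMap (F := fun (l : List ℕ) a => l.map fun b => (a, b)) NPC.Poly.id
    (NPC.Poly.map (F := fun (p : List ℕ × ℕ) b => (p.2, b)) (NPC.Poly.fst NPC.Poly.id)
      (NPC.Poly.pair (NPC.Poly.snd (NPC.Poly.fst NPC.Poly.id)) (NPC.Poly.snd NPC.Poly.id)))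

theorem poly_resid : NPC.Poly (fun q : ℕ × List Jb => resid q.1 q.2) := by
  unfold resid
  refine NPC.Poly.cons (NPC.Poly.const 0) (NPC.Poly.flatMap
    (F := fun (q : ℕ × List Jb) (x : Jb) => [x.2.1 % q.1, (q.1 - x.2.1 % q.1) % q.1])
    (NPC.Poly.snd NPC.Poly.id) ?_)
  have hp : NPC.Poly (fun z : (ℕ × List Jb) × Jb => z.1.1) := NPC.Poly.fst (NPC.Poly.fst NPC.Poly.id)
  have hx : NPC.Poly (fun z : (ℕ × List Jb) × Jb => z.2.2.1) := NPC.Poly.fst (NPC.Poly.snd (NPC.Poly.snd NPC.Poly.id))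
  exact NPC.Poly.cons (NPC.Poly.mod hx hp) (NPC.Poly.cons (NPC.Poly.mod (NPC.Poly.sub hp (NPC.Poly.mod hx hp)) hp)
    (NPC.Poly.const []))

theorem upoly_len : UPoly (fun q : ℕ × List Jb => q.2.length + 1) :=
  UPoly.add (UPoly.length (NPC.Poly.snd NPC.Poly.id)) (UPoly.const 1)

theorem proof_PCand : Pool.Agent.W312.WT.PCand := by
  unfold PCand cands
  refine NPC.Poly.flatMap (F := fun (q : ℕ × List Jb) (k : ℕ) => (resid q.1 q.2).map fun r => k * q.1 + r)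
    upoly_len.range ?_
  refine NPC.Poly.map (F := fun (z : (ℕ × List Jb) × ℕ) (r : ℕ) => z.2 * z.1.1 + r)
    (poly_resid.comp (NPC.Poly.fst NPC.Poly.id)) ?_
  exact NPC.Poly.add (NPC.Poly.mul (NPC.Poly.snd (NPC.Poly.fst NPC.Poly.id)) (NPC.Poly.fst (NPC.Poly.fst (NPC.Poly.fst NPC.Poly.id))))
    (NPC.Poly.snd NPC.Poly.id)

theorem poly_topH : NPC.Poly (fun q : ℕ × List Jb => topH q.2) := by
  unfold topH
  exact NPC.Poly.sum (NPC.Poly.map (F := fun (_ : ℕ × List Jb) (x : Jb) => x.2.1 + 1) (NPC.Poly.snd NPC.Poly.id)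
    (NPC.Poly.add (NPC.Poly.fst (NPC.Poly.snd (NPC.Poly.snd NPC.Poly.id))) (NPC.Poly.const 1)))

theorem poly_ths : NPC.Poly (fun q : ℕ × List Jb => ths q.2) := by
  unfold ths
  exact NPC.Poly.cons (NPC.Poly.const 0) (NPC.Poly.cons poly_topH
    (NPC.Poly.map (F := fun (_ : ℕ × List Jb) (x : Jb) => x.2.1 + 1) (NPC.Poly.snd NPC.Poly.id)
    (NPC.Poly.add (NPC.Poly.fst (NPC.Poly.snd (NPC.Poly.snd NPC.Poly.id))) (NPC.Poly.const 1))))

theorem poly_keys : NPC.Poly (fun q : ℕ × List Jb => keys q.2.length (cands q.1 q.2) (ths q.2)) := by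
  unfold keys
  refine NPC.Poly.flatMap (F := fun (q : ℕ × List Jb) (h : ℕ × ℕ) =>
    (prs (List.range (q.2.length + 1))).flatMap fun s => (prs (cands q.1 q.2)).map fun a =>
      (h, s, a)) (poly_prs.comp poly_ths) ?_
  refine NPC.Poly.flatMap (F := fun (z : (ℕ × List Jb) × (ℕ × ℕ)) (s : ℕ × ℕ) =>
    (prs (cands z.1.1 z.1.2)).map fun a => (z.2, s, a))
    ((poly_prs.comp upoly_len.range).comp (NPC.Poly.fst NPC.Poly.id)) ?_
  refine NPC.Poly.map (F := fun (z : ((ℕ × List Jb) × (ℕ × ℕ)) × (ℕ × ℕ)) (a : ℕ × ℕ) =>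
    (z.1.2, z.2, a)) ((poly_prs.comp proof_PCand).comp (NPC.Poly.fst (NPC.Poly.fst NPC.Poly.id))) ?_
  exact NPC.Poly.pair (NPC.Poly.snd (NPC.Poly.fst (NPC.Poly.fst NPC.Poly.id)))
    (NPC.Poly.pair (NPC.Poly.snd (NPC.Poly.fst NPC.Poly.id)) (NPC.Poly.snd NPC.Poly.id))

theorem poly_initE : NPC.Poly (fun q : ℕ × List Jb => initE q.2.length (cands q.1 q.2) (ths q.2)) := by
  unfold initE
  refine NPC.Poly.flatMap (F := fun (q : ℕ × List Jb) (h : ℕ × ℕ) =>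
    (List.range (q.2.length + 1)).flatMap fun s => (cands q.1 q.2).map fun a =>
      (((h, (s, s), (a, a)), []) : Ent)) (poly_prs.comp poly_ths) ?_
  refine NPC.Poly.flatMap (F := fun (z : (ℕ × List Jb) × (ℕ × ℕ)) (s : ℕ) =>
    (cands z.1.1 z.1.2).map fun a => (((z.2, (s, s), (a, a)), []) : Ent))
    (upoly_len.range.comp (NPC.Poly.fst NPC.Poly.id)) ?_
  refine NPC.Poly.map (F := fun (z : ((ℕ × List Jb) × (ℕ × ℕ)) × ℕ) (a : ℕ) =>
    (((z.1.2, (z.2, z.2), (a, a)), []) : Ent)) (proof_PCand.comp (NPC.Poly.fst (NPC.Poly.fst NPC.Poly.id))) ?_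
  have hs : NPC.Poly (fun w : (((ℕ × List Jb) × (ℕ × ℕ)) × ℕ) × ℕ => w.1.2) :=
    NPC.Poly.snd (NPC.Poly.fst NPC.Poly.id)
  have ha : NPC.Poly (fun w : (((ℕ × List Jb) × (ℕ × ℕ)) × ℕ) × ℕ => w.2) := NPC.Poly.snd NPC.Poly.id
  exact NPC.Poly.pair (NPC.Poly.pair (NPC.Poly.snd (NPC.Poly.fst (NPC.Poly.fst NPC.Poly.id)))
    (NPC.Poly.pair (NPC.Poly.pair hs hs) (NPC.Poly.pair ha ha))) (NPC.Poly.const [])

theorem proof_PKeys : Pool.Agent.W312.WT.PKeys := ⟨poly_keys, poly_initE⟩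

end Pool.Agent.W999.WT
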